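import Mathlib
import Pool.Agent.helper35.BQ.Spec

/-! # Project bq (MP_baa4d7_al), row CMP (helper14) -/

set_option autoImplicit false

open Pool.Agent.helper58.DC Pool.Agent.DI Pool.Agent.DR Pool.Agent.NQ

namespace Pool.Agent.BQ

/-- grouping by conjugacy classes -/
theorem CMP_classes {H : Type} [Group H] [Fintype H] [DecidableEq (ConjClasses H)]
    [Fintype (ConjClasses H)] (z χ : H → ℂ) (hz : ∀ x y, z (y * x * y⁻¹) = z x) :
    ∑ x, z x * χ x = ∑ c : ConjClasses H,
      z (Quotient.out c) * ∑ x ∈ Finset.univ.filter (fun x : H => ConjClasses.mk x = c), χ x := by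
  rw [← Finset.sum_fiberwise Finset.univ (fun x : H => ConjClasses.mk x)]
  refine Finset.sum_congr rfl fun c _ => ?_
  rw [Finset.mul_sum]
  refine Finset.sum_congr rfl fun x hx => ?_
  have h1 : ConjClasses.mk x = c := (Finset.mem_filter.mp hx).2
  have h2 : ConjClasses.mk (Quotient.out c) = c := Quotient.out_eq c
  have h3 : IsConj (Quotient.out c) x := ConjClasses.mk_eq_mk_iff_isConj.mp (h2.trans h1.symm)
  obtain ⟨y, hy⟩ := isConj_iff.mp h3
  rw [← hy, hz]

theorem CMP_cc {Γ : Type} [Group Γ] [Finite Γ] (ψ z : Γ → ℂ) (hz : ∀ x y, z (y * x * y⁻¹) = z x) :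
    cc ψ z = ∑ᶠ c : ConjClasses Γ, z (Quotient.out c) * omega ψ (Quotient.out c) := by
  classical
  have := Fintype.ofFinite Γ
  have : Fintype (ConjClasses Γ) := Fintype.ofFinite _
  unfold cc omega
  rw [finsum_eq_sum_of_fintype, finsum_eq_sum_of_fintype, CMP_classes z ψ hz, Finset.sum_div]
  refine Finset.sum_congr rfl fun c _ => ?_
  rw [mul_div_assoc]
  congr 2
  rw [← finsum_mem_coe_finset]
  refine finsum_mem_congr ?_ fun _ _ => rfl
  ext x
  have h2 : ConjClasses.mk (Quotient.out c) = c := Quotient.out_eq c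
  simp only [Finset.coe_filter, Finset.mem_univ, true_and, Set.mem_ofPred_eq]
  have h3 : x ∈ conjugatesOf (Quotient.out c) ↔ IsConj (Quotient.out c) x := Iff.rfl
  rw [h3, ← ConjClasses.mk_eq_mk_iff_isConj, h2]
  exact eq_comm

theorem CMP (hC1 : C1_stmt) (hC3 : C3_stmt) : CMP_stmt := by
  classical
  intro Γ _ _ p _ M hM hp G' hG' φ φ' h z hz hv
  have : Fintype (ConjClasses Γ) := Fintype.ofFinite _
  rw [CMP_cc φ z hz.1, CMP_cc φ' z hz.1, finsum_eq_sum_of_fintype, finsum_eq_sum_of_fintype]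
  have h' : ∀ c : ConjClasses Γ, ∃ b ∈ M, z (Quotient.out c) * omega φ (Quotient.out c) -
      z (Quotient.out c) * omega φ' (Quotient.out c) = ((b : integralClosure ℤ ℂ) : ℂ) := by
    intro c
    by_cases hc : Quotient.out c ∈ G'
    · obtain ⟨a, ha, he⟩ := h _ hc
      refine ⟨(⟨z (Quotient.out c), hz.2 _⟩ : integralClosure ℤ ℂ) * a,
        Ideal.mul_mem_left _ _ ha, ?_⟩
      rw [← mul_sub, he]
      rfl
    · refine ⟨0, Ideal.zero_mem _, ?_⟩
      rw [hv _ hc]
      simp
  choose b hb he using h'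
  refine ⟨∑ c : ConjClasses Γ, b c, Ideal.sum_mem _ fun c _ => hb c, ?_⟩
  rw [← Finset.sum_sub_distrib]
  rw [AddSubmonoidClass.coe_finsetSum]
  exact Finset.sum_congr rfl fun c _ => he c

end Pool.Agent.BQ
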