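import Pool.Agent.helper28.BQ.SpecK

/-!
# BQ, module FIN: finitely many integers of a totally real field with bounded real embeddings
-/

namespace BQ

/-- the real embedding attached to a complex embedding with real values -/
noncomputable def FIN_re {F : Type} [Field F] (f : F →+* ℂ) (h : ∀ x, (f x).im = 0) : F →+* ℝ where
  toFun x := (f x).re
  map_one' := by simp
  map_zero' := by simp
  map_add' x y := by simp
  map_mul' x y := by simp [Complex.mul_re, h]

theorem FIN : FIN_stmt := by
  intro F _ _ hreal B
  refine (NumberField.Embeddings.finite_of_norm_le F ℂ B).subset ?_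
  rintro a ⟨ha, hB⟩
  refine ⟨ha, fun f => ?_⟩
  have h1 : f a = ((f a).re : ℂ) := by
    apply Complex.ext <;> simp [hreal f a]
  rw [h1, Complex.norm_real, Real.norm_eq_abs]
  exact hB (FIN_re f (hreal f))

end BQ
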