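import Pool.Agent.helper76.BQ.MSpec

/-!
# BQ, module MT1: theta 1-forms are invariant under subgroups of finite index of `Gam`
-/

open scoped BigOperators ComplexConjugate Matrix Topology

namespace BQ

theorem MT1 (hB : B7a_stmt) (hMX : MX1_stmt) (hCG : CG_stmt) (hMBa : MBa_stmt) (hMBc : MBc_stmt)
    (hMBs : MBs_stmt) (hMBd : MBd_stmt) (hME : ME_stmt) : MT1_stmt := by
  intro F _ _ kap d v0 hyp del hdel phi hphi
  obtain ⟨hmob, hball, hev, hdata⟩ := hMBa
  have hk : 0 < v0 (kap * del) := by rw [map_mul]; exact mul_pos (hyp.kapPos v0) hdel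
  have hk0 : kap * del ≠ 0 := fun h => by rw [h, map_zero] at hk; exact lt_irrefl _ hk
  -- the data of part B
  have hmaj : Pool.Agent.helper76.BQ.MajAll (fun _ : Fin 1 => kap * del) v0 (fun _ => 1)
      (fun v => Matrix.diagonal fun _ => |v (kap * del)|) :=
    ⟨fun _ => hk0, fun _ => hk, fun v => ⟨by simp, by simp⟩⟩
  have hsch : Pool.Agent.helper76.BQ.IsSchw (fun x : Fin 1 → Fin 3 → F => phi (x 0)) :=
    (hMBs F _).2 hphi
  obtain ⟨n, K, hn, hK, hinv⟩ := hB F kap d v0 (hdata F kap d v0 hyp) hyp.kapInt hyp.dInt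
    (fun _ => kap * del) _ _ hmaj _ hsch
  have hle : GamN kap d v0 n ≤ Gam kap d v0 := fun g hg => hg.1
  have hU : Unitary3 (v0 d) (GamN kap d v0 n) := fun g hg => (hle hg).2
  obtain ⟨G', hG', hG'i, hG'inv⟩ := hMX (v0 d) (GamN kap d v0 n) hyp.dPos hU
    (theta1 kap d del v0 phi) K hK (by
      intro g hg
      obtain ⟨A, C, hSU, hC, hgA⟩ := hMBd F kap d v0 hyp n hn g hg
      obtain ⟨c, hc, hcz⟩ := hinv A C hSU hC
      refine ⟨c, hc, fun z hz u => ?_⟩
      have h1 := hcz z (by rw [hball]; exact hz) u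
      rw [← hgA, hmob] at h1
      have hz' : mob (g : Matrix (Fin 3) (Fin 3) ℂ) z ∈ Ball (v0 d) :=
        (hME (v0 d) (g : Matrix (Fin 3) (Fin 3) ℂ) 1 z hyp.dPos (hU g hg) (by simp) hz).2.1
      have e1 : ∀ w ∈ Ball (v0 d), ∀ i, Pool.Agent.helper76.BQ.th1 kap d v0
          (fun v => Matrix.diagonal fun _ => |v (kap * del)|) (fun x => phi (x 0)) w i =
          theta1 kap d del v0 phi w i := fun w hw i => (hMBc F kap d del v0 hyp phi w hw i).symm
      simp only [e1 _ hz, e1 _ hz'] at h1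
      exact h1)
  refine ⟨G', hG'.trans hle, ?_, hG'inv⟩
  rw [← Subgroup.relIndex_mul_relIndex G' _ _ hG' hle]
  exact mul_ne_zero hG'i (hCG F kap d v0 hyp n hn)

end BQ
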